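import Pool.Agent.H26.Ribe

set_option autoImplicit false

namespace Pool.Agent.Results.MP_f45ea1_an.Counterexample

open Filter Topology

section Defs

variable {𝕜 X : Type} [RCLike 𝕜] [AddCommGroup X] [Module 𝕜 X]

def IsQuasiBanach (𝕜 : Type) {X : Type} [RCLike 𝕜] [AddCommGroup X] [Module 𝕜 X] (q : X → ℝ) :
    Prop :=
  (∀ x, 0 ≤ q x) ∧ (∀ x, q x = 0 ↔ x = 0) ∧ (∀ (t : 𝕜) (x : X), q (t • x) = ‖t‖ * q x) ∧
    (∃ κ : ℝ, ∀ x y, q (x + y) ≤ κ * (q x + q y)) ∧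
    ∀ u : ℕ → X, (∀ ε > 0, ∃ N, ∀ m ≥ N, ∀ n ≥ N, q (u m - u n) < ε) →
      ∃ x, Tendsto (fun n => q (u n - x)) atTop (𝓝 0)

def IsMBasis (q : X → ℝ) (e : ℕ → X) (f : ℕ → X →ₗ[𝕜] 𝕜) : Prop :=
  (∀ j n, f j (e n) = if j = n then 1 else 0) ∧
    (∀ x, ∀ ε > 0, ∃ y ∈ Submodule.span 𝕜 (Set.range e), q (x - y) < ε) ∧
    (∀ x, (∀ n, f n x = 0) → x = 0) ∧ ∃ C : ℝ, ∀ n, q (e n) ≤ C ∧ ∀ x, ‖f n x‖ ≤ C * q x

def IsGreedySet (f : ℕ → X →ₗ[𝕜] 𝕜) (x : X) (A : Finset ℕ) : Prop :=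
  ∀ n ∈ A, ∀ j ∉ A, ‖f j x‖ ≤ ‖f n x‖

noncomputable def sigma (𝕜 : Type) {X : Type} [RCLike 𝕜] [AddCommGroup X] [Module 𝕜 X] (q : X → ℝ)
    (e : ℕ → X) (m : ℕ) (x : X) : ℝ :=
  sInf {r | ∃ (B : Finset ℕ) (a : ℕ → 𝕜), B.card ≤ m ∧ r = q (x - ∑ n ∈ B, a n • e n)}

def AlmostGreedy (q : X → ℝ) (e : ℕ → X) (f : ℕ → X →ₗ[𝕜] 𝕜) : Prop :=
  ∃ C : ℝ, ∀ x A, IsGreedySet f x A → q (x - ∑ n ∈ A, f n x • e n) ≤
    C * sInf {r | ∃ B : Finset ℕ, B.card ≤ A.card ∧ r = q (x - ∑ n ∈ B, f n x • e n)}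

def SemiGreedy (q : X → ℝ) (e : ℕ → X) (f : ℕ → X →ₗ[𝕜] 𝕜) : Prop :=
  ∃ C : ℝ, ∀ x A, IsGreedySet f x A →
    ∃ a : ℕ → 𝕜, q (x - ∑ n ∈ A, a n • e n) ≤ C * sigma 𝕜 q e A.card x

end Defs

open Pool.Agent.H26.Ribe

variable {𝕜 : Type} [RCLike 𝕜]

noncomputable def e (n : ℕ) : X 𝕜 := ⟨e0 n, span_le (Submodule.subset_span ⟨n, rfl⟩)⟩

noncomputable def f (n : ℕ) : X 𝕜 →ₗ[𝕜] 𝕜 := (co n).comp (X 𝕜).subtype

lemma fe (j n : ℕ) : f j (e n : X 𝕜) = if j = n then 1 else 0 := e0_apply n j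

lemma total (x : X 𝕜) (h : ∀ n, f n x = 0) : x = 0 :=
  Subtype.ext (lp.ext (funext h))

lemma sum_le (x : X 𝕜) (T : Finset ℕ) : ∑ n ∈ T, ‖f n x‖ ≤ q x :=
  (sum_le_hasSum T (fun _ _ => norm_nonneg _) (hs x.1)).trans (le_q x).norm

lemma f_le (x : X 𝕜) (n : ℕ) : ‖f n x‖ ≤ q x := by simpa using sum_le x {n}

lemma hco (x : X 𝕜) (A : Finset ℕ) (a : ℕ → 𝕜) (k : ℕ) :
    f k (x - ∑ n ∈ A, a n • e n) = if k ∈ A then f k x - a k else f k x := by
  simp only [map_sub, map_sum, map_smul, fe, smul_eq_mul, mul_ite, mul_one, mul_zero,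
    Finset.sum_ite_eq]
  split_ifs <;> simp

lemma q_pair (D : Finset ℕ) (π : ℕ → ℕ) (h1 : Set.InjOn π D) (h2 : ∀ j ∈ D, π j ∉ D) (d : ℕ → 𝕜) :
    q (∑ j ∈ D, d j • (e j - e (π j)) : X 𝕜) ≤ 2 * ∑ j ∈ D, ‖d j‖ :=
  q_le (by simpa [e] using le_pair D π h1 h2 d)

lemma semi (x : X 𝕜) (A B : Finset ℕ) (hA : IsGreedySet f x A) (hB : B.card ≤ A.card)
    (a : ℕ → 𝕜) : ∃ c : ℕ → 𝕜, q (x - ∑ n ∈ A, c n • e n) ≤ 15 * q (x - ∑ n ∈ B, a n • e n) := by
  have hc : (B \ A).card ≤ (A \ B).card := by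
    have := Finset.card_sdiff_add_card_inter A B
    have := Finset.card_sdiff_add_card_inter B A
    rw [Finset.inter_comm] at this
    omega
  obtain ⟨π, h2, h1⟩ := (B \ A).finite_toSet.exists_injOn_of_encard_le
    (t := ((A \ B : Finset ℕ) : Set ℕ))
    (by simpa only [Set.encard_coe_eq_coe_finsetCard, Nat.cast_le] using hc)
  have h3 : ∀ j ∈ B \ A, π j ∈ A ∧ π j ∉ B := fun j hj => Finset.mem_sdiff.1 (h2 hj)
  set u := x - ∑ n ∈ B, a n • e n with hu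
  set w : X 𝕜 := ∑ j ∈ B \ A, a j • (e j - e (π j)) with hw
  have h4 : ∀ k ∉ A, f k (u + w) = f k x := by
    intro k hk
    have : f k w = if k ∈ B then a k else 0 := by
      simp only [hw, map_sum, map_smul, map_sub, fe, smul_eq_mul]
      rw [Finset.sum_congr rfl (g := fun j => if k = j then a j else 0) fun j hj => by
        rw [if_neg (c := k = π j) fun h => hk (h ▸ (h3 j hj).1)]; simp]
      simp [hk]
    rw [map_add, hu, hco, this]
    split_ifs <;> simp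
  refine ⟨fun n => f n x - f n (u + w), ?_⟩
  have h5 : x - ∑ n ∈ A, (f n x - f n (u + w)) • e n = u + w := by
    refine sub_eq_zero.1 (total _ fun k => ?_)
    rw [map_sub, hco]
    split_ifs with hk
    · ring
    · rw [h4 k hk, sub_self]
  have h6 := q_pair (B \ A) π h1 (fun j hj h => (h3 j hj).2 (Finset.mem_sdiff.1 h).1) a
  have h7 : ∑ j ∈ B \ A, ‖a j‖ ≤ q u := by
    refine le_trans ?_ (sum_le u ((B \ A) ∪ (B \ A).image π))
    rw [Finset.sum_union, Finset.sum_image h1, ← Finset.sum_add_distrib]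
    · refine Finset.sum_le_sum fun j hj => ?_
      obtain ⟨b1, b2⟩ := Finset.mem_sdiff.1 hj
      rw [hu, hco, hco, if_pos b1, if_neg (h3 j hj).2]
      have := norm_sub_le (f j x) (f j x - a j)
      rw [sub_sub_cancel] at this
      linarith [hA _ (h3 j hj).1 j b2]
    · exact Finset.disjoint_right.2 fun n hn h => by
        obtain ⟨j, hj, rfl⟩ := Finset.mem_image.1 hn
        exact (h3 j hj).2 (Finset.mem_sdiff.1 h).1
  rw [h5]
  linarith [q_add u w]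

theorem result (𝕜 : Type) [RCLike 𝕜] :
    ∃ (X : Type) (_ : AddCommGroup X) (_ : Module 𝕜 X) (q : X → ℝ) (e : ℕ → X)
      (f : ℕ → X →ₗ[𝕜] 𝕜), IsQuasiBanach 𝕜 q ∧ IsMBasis q e f ∧ SemiGreedy q e f ∧
      ¬ AlmostGreedy q e f := by
  have q0 : q (0 : X 𝕜) = 0 := by simpa using q_smul (0 : 𝕜) (0 : X 𝕜)
  refine ⟨X 𝕜, inferInstance, inferInstance, q, e, f, ⟨q_nonneg, fun x => ⟨fun h => total x
    fun n => norm_le_zero_iff.1 (h ▸ f_le x n), fun h => h ▸ q0⟩, q_smul, ⟨5, q_add⟩, q_complete⟩,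
    ⟨fe, fun x ε hε => ?_, total, 1, fun n => ⟨q_le (le_e0 n), fun x => by simpa using f_le x n⟩⟩,
    ⟨30, fun x A hA => ?_⟩, ?_⟩
  · obtain ⟨b, hb, h⟩ := x.2 (ε / 2) (by positivity)
    have : Submodule.span 𝕜 (Set.range (e0 (𝕜 := 𝕜))) ≤
        (Submodule.span 𝕜 (Set.range e)).map (X 𝕜).subtype := by
      refine Submodule.span_le.2 ?_
      rintro _ ⟨i, rfl⟩
      exact ⟨e i, Submodule.subset_span ⟨i, rfl⟩, rfl⟩
    obtain ⟨y, hy, rfl⟩ := this hb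
    exact ⟨y, hy, (q_sub_le h).trans_lt (by linarith)⟩
  · have h1 : ∀ r, sigma 𝕜 q e A.card x < r →
        ∃ c : ℕ → 𝕜, q (x - ∑ n ∈ A, c n • e n) ≤ 15 * r := by
      intro r hr
      obtain ⟨_, ⟨B, a, hB, rfl⟩, h⟩ := exists_lt_of_csInf_lt (s := {r | ∃ (B : Finset ℕ)
        (a : ℕ → 𝕜), B.card ≤ A.card ∧ r = q (x - ∑ n ∈ B, a n • e n)})
        ⟨_, ∅, 0, by simp, rfl⟩ hr
      obtain ⟨c, hc⟩ := semi x A B hA hB a
      exact ⟨c, by linarith⟩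
    have h2 : 0 ≤ sigma 𝕜 q e A.card x :=
      Real.sInf_nonneg (by rintro _ ⟨B, a, -, rfl⟩; exact q_nonneg _)
    rcases h2.eq_or_lt with h0 | h0
    · refine ⟨fun n => f n x, ?_⟩
      rw [total (x - _) fun k => ?_, q0, ← h0, mul_zero]
      rw [hco]
      split_ifs with hk
      · simp
      · refine norm_le_zero_iff.1 (le_of_forall_pos_le_add fun ε hε => ?_)
        obtain ⟨c, hc⟩ := h1 (ε / 15) (by linarith)
        have := f_le (x - ∑ n ∈ A, c n • e n) k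
        rw [hco, if_neg hk] at this
        linarith
    · obtain ⟨c, hc⟩ := h1 (2 * sigma 𝕜 q e A.card x) (by linarith)
      exact ⟨c, by linarith⟩
  · rintro ⟨C, hC⟩
    obtain ⟨m, hm1, hm2⟩ := (((Real.tendsto_log_atTop.comp tendsto_natCast_atTop_atTop).eventually
      (eventually_gt_atTop (|C| * 2))).and (eventually_gt_atTop 0)).exists
    let B := (Finset.range m).image (· + m)
    have hi : Set.InjOn (· + m) (Finset.range m) := fun _ _ _ _ h => by simpa using h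
    have hB : B.card = m := by rw [Finset.card_image_of_injOn hi, Finset.card_range]
    let x : X 𝕜 := ∑ j ∈ Finset.range m, (-1 : 𝕜) • (e j - e (j + m))
    have hx : x = ∑ j ∈ B, e j - ∑ j ∈ Finset.range m, (1 : 𝕜) • e j := by
      simp [x, B, Finset.sum_image hi]
    have hb : ∀ k, f k (∑ j ∈ B, e j : X 𝕜) = if k ∈ B then 1 else 0 := by simp [fe]
    have hf : ∀ k ∈ Finset.range m, f k x = -1 := by
      intro k hk
      have : k ∉ B := by simp [B]; simp at hk; omega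
      rw [hx, hco _ _ (fun _ => 1), if_pos hk, hb, if_neg this, zero_sub]
    have h1 := hC x (Finset.range m) fun n hn j hj => by
      rw [hf n hn, hx, hco _ _ (fun _ => 1), if_neg hj, hb]
      split_ifs <;> simp
    have h2 : x - ∑ n ∈ Finset.range m, f n x • e n = ∑ j ∈ B, e j := by
      rw [Finset.sum_congr rfl fun n hn => by rw [hf n hn], hx]
      simp
    have h3 := lower (𝕜 := 𝕜) B _ (by simpa [e] using le_q (∑ j ∈ B, e j : X 𝕜))
    have h4 : q x ≤ 2 * m := by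
      refine (q_pair (Finset.range m) (· + m) hi (fun j _ => by simp) fun _ => (-1 : 𝕜)).trans ?_
      simp
    set s := sInf {r | ∃ B : Finset ℕ, B.card ≤ (Finset.range m).card ∧
      r = q (x - ∑ n ∈ B, f n x • e n)}
    have h5 : s ≤ q x := csInf_le ⟨0, by rintro _ ⟨B, -, rfl⟩; exact q_nonneg _⟩
      ⟨∅, by simp, by simp⟩
    have h6 : 0 ≤ s := Real.sInf_nonneg (by rintro _ ⟨B, -, rfl⟩; exact q_nonneg _)
    rw [h2] at h1
    rw [hB] at h3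
    have h7 : (0 : ℝ) < m := by exact_mod_cast hm2
    have h8 := mul_lt_mul_of_pos_left hm1 h7
    have h9 := mul_le_mul_of_nonneg_right (le_abs_self C) h6
    have h10 := mul_le_mul_of_nonneg_left (h5.trans h4) (abs_nonneg C)
    simp only [Function.comp] at h8
    have h11 : (m : ℝ) * Real.log m ≤ q (∑ j ∈ B, e j : X 𝕜) := h3
    linarith

end Pool.Agent.Results.MP_f45ea1_an.Counterexample
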